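import Pool.Agent.H70.TIE.Stmts

/-!
# The arithmetic large sieve (Montgomery)
-/

set_option autoImplicit false

namespace TIE

open Finset MTA

theorem ee_add (s t : ℝ) : ee (s + t) = ee s * ee t := by
  unfold ee
  rw [← Complex.exp_add]
  congr 1
  push_cast
  ring

theorem ee_int (k : ℤ) : ee (k : ℝ) = 1 := by
  unfold ee
  rw [Complex.exp_eq_one_iff]
  exact ⟨k, by push_cast; ring⟩

theorem ee_conj (t : ℝ) : (starRingEnd ℂ) (ee t) = ee (-t) := by
  unfold ee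
  rw [← Complex.exp_conj]
  congr 1
  simp only [map_mul, Complex.conj_I, Complex.conj_ofReal, Complex.ofReal_neg, map_ofNat]
  ring

theorem ee_pow (t : ℝ) (n : ℕ) : ee t ^ n = ee (n * t) := by
  unfold ee
  rw [← Complex.exp_nat_mul]
  congr 1
  push_cast
  ring

/-- Orthogonality. -/
theorem ee_sum {p : ℕ} (hp : 1 ≤ p) (k : ℤ) :
    ∑ b ∈ range p, ee (k * b / p) = if (p : ℤ) ∣ k then (p : ℂ) else 0 := by
  have hp0 : (p : ℝ) ≠ 0 := by
    have : (1 : ℝ) ≤ p := by exact_mod_cast hp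
    linarith
  split_ifs with h
  · obtain ⟨l, rfl⟩ := h
    have h1 : ∀ b ∈ range p, ee (((p : ℤ) * l : ℤ) * b / p) = 1 := fun b _ => by
      have e : (((p : ℤ) * l : ℤ) : ℝ) * b / p = ((l * b : ℤ) : ℝ) := by
        push_cast
        field_simp
      rw [e]
      exact ee_int _
    rw [Finset.sum_congr rfl h1, Finset.sum_const, card_range, nsmul_eq_mul, mul_one]
  · obtain ⟨x, hx⟩ : ∃ x, x = ee (k / p) := ⟨_, rfl⟩
    have h1 : ∀ b ∈ range p, ee ((k : ℝ) * b / p) = x ^ b := fun b _ => by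
      rw [hx, ee_pow]
      congr 1
      ring
    rw [Finset.sum_congr rfl h1]
    have h2 : x ^ p = 1 := by
      rw [hx, ee_pow]
      have e : (p : ℝ) * (k / p) = ((k : ℤ) : ℝ) := by field_simp
      rw [e]
      exact ee_int _
    have h3 : x ≠ 1 := by
      intro h4
      rw [hx] at h4
      unfold ee at h4
      rw [Complex.exp_eq_one_iff] at h4
      obtain ⟨n, hn⟩ := h4
      refine h ⟨n, ?_⟩
      have h5 : (2 * Real.pi * Complex.I : ℂ) ≠ 0 := Complex.two_pi_I_ne_zero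
      have h6 : (((k / p : ℝ)) : ℂ) = n := by
        have h7 : (2 * Real.pi * Complex.I : ℂ) * ((k / p : ℝ) : ℂ) =
            (2 * Real.pi * Complex.I : ℂ) * n := by
          rw [hn]
          ring
        exact mul_left_cancel₀ h5 h7
      have h8 : (k / p : ℝ) = n := by exact_mod_cast h6
      have h9 : (k : ℝ) = p * n := by
        rw [← h8]
        field_simp
      exact_mod_cast h9
    have h4 := geom_sum_mul x p
    rw [h2, sub_self] at h4
    rcases mul_eq_zero.1 h4 with h5 | h5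
    · exact h5
    · exact absurd (sub_eq_zero.1 h5) h3

/-- The exponential sum over a set. -/
noncomputable def TS (S : Finset ℕ) (t : ℝ) : ℂ := ∑ n ∈ S, ee (n * t)

theorem TS_int (S : Finset ℕ) (t : ℝ) (k : ℤ) : TS S (t + k) = TS S t := by
  unfold TS
  refine Finset.sum_congr rfl fun n _ => ?_
  have e : (n : ℝ) * (t + k) = n * t + ((n * k : ℤ) : ℝ) := by
    push_cast
    ring
  rw [e, ee_add, ee_int, mul_one]

/-- The square of the absolute value of an exponential sum. -/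
theorem TS_sq (S : Finset ℕ) (t : ℝ) : ((‖TS S t‖ ^ 2 : ℝ) : ℂ) =
    ∑ n ∈ S, ∑ n' ∈ S, ee (((n : ℤ) - n' : ℤ) * t) := by
  have h1 : ((‖TS S t‖ ^ 2 : ℝ) : ℂ) = TS S t * (starRingEnd ℂ) (TS S t) := by
    rw [Complex.mul_conj, Complex.normSq_eq_norm_sq]
  rw [h1]
  unfold TS
  rw [map_sum, Finset.sum_mul_sum]
  refine Finset.sum_congr rfl fun n _ => Finset.sum_congr rfl fun n' _ => ?_
  rw [ee_conj, ← ee_add]
  congr 1
  push_cast
  ring

/-- **One prime.** -/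
theorem als_one {p : ℕ} (hp : 1 ≤ p) (S : Finset ℕ) {w : ℕ} (hw : w < p)
    (hS : (S.image (fun n => n % p)).card + w ≤ p) (t : ℝ) :
    (p : ℝ) / ((p : ℝ) - w) * ‖TS S t‖ ^ 2 ≤ ∑ b ∈ range p, ‖TS S (t + b / p)‖ ^ 2 := by
  have hp0 : (p : ℝ) ≠ 0 := by
    have : (1 : ℝ) ≤ p := by exact_mod_cast hp
    linarith
  have hwp : (0 : ℝ) < (p : ℝ) - w := by
    have : (w : ℝ) < p := by exact_mod_cast hw
    linarith
  -- the classes
  have h1 : ((∑ b ∈ range p, ‖TS S (t + b / p)‖ ^ 2 : ℝ) : ℂ) =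
      p * ∑ n ∈ S, ∑ n' ∈ S, if n % p = n' % p then ee (((n : ℤ) - n' : ℤ) * t) else 0 := by
    rw [Complex.ofReal_sum]
    have e1 : ∀ b ∈ range p, ((‖TS S (t + b / p)‖ ^ 2 : ℝ) : ℂ) =
        ∑ n ∈ S, ∑ n' ∈ S, ee (((n : ℤ) - n' : ℤ) * t) * ee (((n : ℤ) - n' : ℤ) * b / p) :=
      fun b _ => by
        rw [TS_sq]
        refine Finset.sum_congr rfl fun n _ => Finset.sum_congr rfl fun n' _ => ?_
        rw [← ee_add]
        congr 1
        ring
    rw [Finset.sum_congr rfl e1, Finset.sum_comm, Finset.mul_sum]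
    refine Finset.sum_congr rfl fun n _ => ?_
    rw [Finset.sum_comm, Finset.mul_sum]
    refine Finset.sum_congr rfl fun n' _ => ?_
    rw [← Finset.mul_sum, ee_sum hp]
    have e2 : (p : ℤ) ∣ ((n : ℤ) - n') ↔ n % p = n' % p := by
      constructor
      · intro h
        have h3 : (n : ℤ) ≡ n' [ZMOD p] := (Int.modEq_iff_dvd.2 (by
          have := (dvd_neg (a := (p : ℤ)) (b := (n : ℤ) - n')).2 h
          rwa [neg_sub] at this))
        have h4 : n ≡ n' [MOD p] := (Int.natCast_modEq_iff).1 h3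
        exact h4
      · intro h
        have h4 : n ≡ n' [MOD p] := h
        have h3 : (n : ℤ) ≡ n' [ZMOD p] := (Int.natCast_modEq_iff).2 h4
        have h5 := Int.modEq_iff_dvd.1 h3
        rw [← neg_sub]
        exact (dvd_neg).2 h5
    by_cases h : n % p = n' % p
    · rw [if_pos (e2.2 h), if_pos h]
      ring
    · rw [if_neg (fun h' => h (e2.1 h')), if_neg h]
      ring
  obtain ⟨Z, hZ⟩ : ∃ Z : ℕ → Finset ℕ, Z = fun c => S.filter fun n => n % p = c := ⟨_, rfl⟩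
  have h2 : ((∑ c ∈ range p, ‖TS (Z c) t‖ ^ 2 : ℝ) : ℂ) =
      ∑ n ∈ S, ∑ n' ∈ S, if n % p = n' % p then ee (((n : ℤ) - n' : ℤ) * t) else 0 := by
    rw [Complex.ofReal_sum]
    have e1 : ∀ c ∈ range p, ((‖TS (Z c) t‖ ^ 2 : ℝ) : ℂ) =
        ∑ n ∈ S, if n % p = c then (∑ n' ∈ S, if n % p = n' % p then
          ee (((n : ℤ) - n' : ℤ) * t) else 0) else 0 := fun c _ => by
      rw [TS_sq, hZ]
      show ∑ n ∈ S.filter (fun n => n % p = c), ∑ n' ∈ S.filter (fun n => n % p = c),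
        ee (((n : ℤ) - n' : ℤ) * t) = _
      rw [Finset.sum_filter]
      refine Finset.sum_congr rfl fun n _ => ?_
      by_cases h : n % p = c
      · rw [if_pos h, if_pos h, Finset.sum_filter]
        refine Finset.sum_congr rfl fun n' _ => ?_
        by_cases h' : n' % p = c
        · rw [if_pos h', if_pos (h.trans h'.symm)]
        · rw [if_neg h', if_neg (fun h'' => h' (h''.symm.trans h))]
      · rw [if_neg h, if_neg h]
    rw [Finset.sum_congr rfl e1, Finset.sum_comm]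
    refine Finset.sum_congr rfl fun n _ => ?_
    rw [Finset.sum_ite_eq (range p) (n % p)]
    rw [if_pos (mem_range.2 (Nat.mod_lt _ hp))]
  have h3 : ∑ b ∈ range p, ‖TS S (t + b / p)‖ ^ 2 = p * ∑ c ∈ range p, ‖TS (Z c) t‖ ^ 2 := by
    have : ((∑ b ∈ range p, ‖TS S (t + b / p)‖ ^ 2 : ℝ) : ℂ) =
        ((p * ∑ c ∈ range p, ‖TS (Z c) t‖ ^ 2 : ℝ) : ℂ) := by
      rw [h1, ← h2]
      push_cast
      ring
    exact_mod_cast this
  -- Cauchy
  obtain ⟨I, hI⟩ : ∃ I, I = S.image fun n => n % p := ⟨_, rfl⟩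
  have hIp : I ⊆ range p := by
    rw [hI]
    intro c hc
    obtain ⟨n, -, rfl⟩ := mem_image.1 hc
    exact mem_range.2 (Nat.mod_lt _ hp)
  have h4 : TS S t = ∑ c ∈ I, TS (Z c) t := by
    unfold TS
    rw [hZ, hI]
    exact (Finset.sum_fiberwise_of_maps_to (fun n hn => mem_image_of_mem _ hn) _).symm
  have h5 : ‖TS S t‖ ^ 2 ≤ ((p : ℝ) - w) * ∑ c ∈ range p, ‖TS (Z c) t‖ ^ 2 := by
    have g1 : ‖TS S t‖ ≤ ∑ c ∈ I, ‖TS (Z c) t‖ := by
      rw [h4]
      exact norm_sum_le _ _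
    have g2 : ‖TS S t‖ ^ 2 ≤ (∑ c ∈ I, ‖TS (Z c) t‖) ^ 2 := by
      exact pow_le_pow_left₀ (norm_nonneg _) g1 2
    have g3 := sq_sum_le_card_mul_sum_sq (s := I) (f := fun c => ‖TS (Z c) t‖)
    have g4 : ∑ c ∈ I, ‖TS (Z c) t‖ ^ 2 ≤ ∑ c ∈ range p, ‖TS (Z c) t‖ ^ 2 :=
      Finset.sum_le_sum_of_subset_of_nonneg hIp fun _ _ _ => by positivity
    have g5 : (I.card : ℝ) ≤ (p : ℝ) - w := by
      have : (I.card : ℝ) + w ≤ p := by
        rw [hI]
        exact_mod_cast hS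
      linarith
    have g6 : 0 ≤ ∑ c ∈ I, ‖TS (Z c) t‖ ^ 2 := Finset.sum_nonneg fun _ _ => by positivity
    calc ‖TS S t‖ ^ 2 ≤ I.card * ∑ c ∈ I, ‖TS (Z c) t‖ ^ 2 := g2.trans g3
      _ ≤ ((p : ℝ) - w) * ∑ c ∈ I, ‖TS (Z c) t‖ ^ 2 := mul_le_mul_of_nonneg_right g5 g6
      _ ≤ ((p : ℝ) - w) * ∑ c ∈ range p, ‖TS (Z c) t‖ ^ 2 :=
          mul_le_mul_of_nonneg_left g4 hwp.le
  rw [h3, div_mul_eq_mul_div, div_le_iff₀ hwp]
  calc (p : ℝ) * ‖TS S t‖ ^ 2 ≤ p * (((p : ℝ) - w) * ∑ c ∈ range p, ‖TS (Z c) t‖ ^ 2) :=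
        mul_le_mul_of_nonneg_left h5 (Nat.cast_nonneg p)
    _ = p * ∑ c ∈ range p, ‖TS (Z c) t‖ ^ 2 * ((p : ℝ) - w) := by
        rw [Finset.mul_sum, Finset.mul_sum, Finset.mul_sum]
        refine Finset.sum_congr rfl fun c _ => by ring
    _ = (p * ∑ c ∈ range p, ‖TS (Z c) t‖ ^ 2) * ((p : ℝ) - w) := by
        rw [Finset.mul_sum, Finset.mul_sum, Finset.sum_mul]
        refine Finset.sum_congr rfl fun c _ => by ring

/-- **One prime**, reduced fractions. -/
theorem als_pr {p : ℕ} (hp : p.Prime) (S : Finset ℕ) {w : ℕ} (hw : w < p)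
    (hS : (S.image (fun n => n % p)).card + w ≤ p) (t : ℝ) :
    (w : ℝ) / ((p : ℝ) - w) * ‖TS S t‖ ^ 2 ≤ ∑ b ∈ RR p, ‖TS S (t + b / p)‖ ^ 2 := by
  have h1 := als_one hp.one_le S hw hS t
  have hwp : (0 : ℝ) < (p : ℝ) - w := by
    have : (w : ℝ) < p := by exact_mod_cast hw
    linarith
  have h2 : range p = insert 0 (RR p) := by
    ext b
    unfold RR
    rw [mem_insert, mem_filter, mem_range]
    constructor
    · intro hb
      rcases Nat.eq_zero_or_pos b with h | h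
      · exact Or.inl h
      · exact Or.inr ⟨hb, (Nat.coprime_comm.1 ((Nat.Prime.coprime_iff_not_dvd hp).2
          (Nat.not_dvd_of_pos_of_lt h hb)))⟩
    · rintro (h | h)
      · rw [h]
        exact hp.pos
      · exact h.1
  have h3 : (0 : ℕ) ∉ RR p := by
    unfold RR
    rw [mem_filter]
    rintro ⟨-, h⟩
    rw [Nat.coprime_zero_left] at h
    exact hp.one_lt.ne' h
  rw [h2, Finset.sum_insert h3] at h1
  have e1 : ‖TS S (t + (0 : ℕ) / p)‖ ^ 2 = ‖TS S t‖ ^ 2 := by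
    rw [Nat.cast_zero, zero_div, add_zero]
  rw [e1] at h1
  have e2 : (p : ℝ) / ((p : ℝ) - w) = 1 + w / ((p : ℝ) - w) := by
    field_simp
    ring
  rw [e2, add_mul, one_mul] at h1
  linarith

/-- The sum over the reduced fractions of a product. -/
theorem RR_mul {p r : ℕ} (hpr : p.Coprime r) (hp : 1 ≤ p) (hr : 1 ≤ r) {f : ℝ → ℝ}
    (hf : ∀ (x : ℝ) (k : ℤ), f (x + k) = f x) :
    ∑ b ∈ RR (p * r), f (b / ((p * r : ℕ) : ℝ)) = ∑ b₂ ∈ RR r, ∑ b₁ ∈ RR p, f (b₂ / r + b₁ / p) := by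
  have hp0 : (p : ℝ) ≠ 0 := by
    have : (1 : ℝ) ≤ p := by exact_mod_cast hp
    linarith
  have hr0 : (r : ℝ) ≠ 0 := by
    have : (1 : ℝ) ≤ r := by exact_mod_cast hr
    linarith
  have hpr0 : 0 < p * r := Nat.mul_pos hp hr
  obtain ⟨g, hg⟩ : ∃ g : ℕ × ℕ → ℕ, g = fun x => (x.1 * p + x.2 * r) % (p * r) := ⟨_, rfl⟩
  have hgm : ∀ x ∈ RR r ×ˢ RR p, g x ∈ RR (p * r) := by
    rintro ⟨b₂, b₁⟩ hx
    obtain ⟨h1, h2⟩ := mem_product.1 hx
    unfold RR at h1 h2 ⊢
    rw [mem_filter] at h1 h2 ⊢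
    rw [hg]
    refine ⟨mem_range.2 (Nat.mod_lt _ hpr0), ?_⟩
    show ((b₂ * p + b₁ * r) % (p * r)).Coprime (p * r)
    have h3 : (b₂ * p + b₁ * r).Coprime (p * r) := by
      refine Nat.Coprime.mul_right ?_ ?_
      · rw [Nat.add_comm]
        rw [Nat.coprime_add_mul_right_left]
        exact Nat.Coprime.mul_left h2.2 hpr.symm
      · rw [Nat.coprime_add_mul_right_left]
        exact Nat.Coprime.mul_left h1.2 hpr
    unfold Nat.Coprime at h3 ⊢
    rw [← Nat.gcd_rec, Nat.gcd_comm]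
    exact h3
  have hgi : ∀ x ∈ RR r ×ˢ RR p, ∀ y ∈ RR r ×ˢ RR p, g x = g y → x = y := by
    rintro ⟨b₂, b₁⟩ hx ⟨d₂, d₁⟩ hy h
    obtain ⟨h1, h2⟩ := mem_product.1 hx
    obtain ⟨h3, h4⟩ := mem_product.1 hy
    unfold RR at h1 h2 h3 h4
    rw [mem_filter, mem_range] at h1 h2 h3 h4
    rw [hg] at h
    have h5 : b₂ * p + b₁ * r ≡ d₂ * p + d₁ * r [MOD p * r] := h
    have h6 : b₂ * p + b₁ * r ≡ d₂ * p + d₁ * r [MOD r] := h5.of_dvd (Dvd.intro_left p rfl)
    have h7 : b₂ * p + b₁ * r ≡ d₂ * p + d₁ * r [MOD p] := h5.of_dvd (Dvd.intro r rfl)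
    have h8 : b₂ * p ≡ d₂ * p [MOD r] := by
      have a1 : b₂ * p + b₁ * r ≡ b₂ * p [MOD r] := by
        unfold Nat.ModEq
        rw [Nat.add_mul_mod_self_right]
      have a2 : d₂ * p + d₁ * r ≡ d₂ * p [MOD r] := by
        unfold Nat.ModEq
        rw [Nat.add_mul_mod_self_right]
      exact a1.symm.trans (h6.trans a2)
    have h9 : b₁ * r ≡ d₁ * r [MOD p] := by
      have a1 : b₂ * p + b₁ * r ≡ b₁ * r [MOD p] := by
        unfold Nat.ModEq
        rw [Nat.add_comm, Nat.add_mul_mod_self_right]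
      have a2 : d₂ * p + d₁ * r ≡ d₁ * r [MOD p] := by
        unfold Nat.ModEq
        rw [Nat.add_comm, Nat.add_mul_mod_self_right]
      exact a1.symm.trans (h7.trans a2)
    have h10 : b₂ ≡ d₂ [MOD r] := Nat.ModEq.cancel_right_of_coprime hpr.symm h8
    have h11 : b₁ ≡ d₁ [MOD p] := Nat.ModEq.cancel_right_of_coprime hpr h9
    have h12 : b₂ = d₂ := by
      have := h10
      unfold Nat.ModEq at this
      rwa [Nat.mod_eq_of_lt h1.1, Nat.mod_eq_of_lt h3.1] at this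
    have h13 : b₁ = d₁ := by
      have := h11
      unfold Nat.ModEq at this
      rwa [Nat.mod_eq_of_lt h2.1, Nat.mod_eq_of_lt h4.1] at this
    rw [h12, h13]
  have hcR : ∀ n, (RR n).card = n.totient := fun n => by
    unfold RR
    rw [Nat.totient_eq_card_coprime]
    refine congrArg Finset.card (Finset.filter_congr fun b _ => ?_)
    exact Nat.coprime_comm
  have himg : (RR r ×ˢ RR p).image g = RR (p * r) := by
    refine Finset.eq_of_subset_of_card_le (fun y hy => ?_) ?_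
    · obtain ⟨x, hx, rfl⟩ := mem_image.1 hy
      exact hgm x hx
    · rw [Finset.card_image_of_injOn (fun x hx y hy h => hgi x hx y hy h), card_product,
        hcR, hcR, hcR, Nat.totient_mul hpr, Nat.mul_comm]
  rw [← himg, Finset.sum_image (fun x hx y hy h => hgi x hx y hy h), Finset.sum_product]
  refine Finset.sum_congr rfl fun b₂ _ => Finset.sum_congr rfl fun b₁ _ => ?_
  rw [hg]
  show f (((b₂ * p + b₁ * r) % (p * r) : ℕ) / ((p * r : ℕ) : ℝ)) = _
  have h1 := Nat.div_add_mod (b₂ * p + b₁ * r) (p * r)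
  obtain ⟨y, hy⟩ : ∃ y, y = (b₂ * p + b₁ * r) % (p * r) := ⟨_, rfl⟩
  obtain ⟨k, hk⟩ : ∃ k, k = (b₂ * p + b₁ * r) / (p * r) := ⟨_, rfl⟩
  rw [← hy, ← hk] at h1
  rw [← hy]
  have h2 : (p : ℝ) * r * k + y = b₂ * p + b₁ * r := by exact_mod_cast h1
  rw [← hf (y / ((p * r : ℕ) : ℝ)) (k : ℤ)]
  congr 1
  push_cast
  field_simp
  linarith

/-- **Squarefree moduli.** -/
theorem als_sf {S : Finset ℕ} {w : ℕ → ℕ} (r : ℕ) : r ≠ 0 → Squarefree r →
    (∀ p ∈ r.primeFactors, w p < p ∧ (S.image (fun n => n % p)).card + w p ≤ p) → ∀ t : ℝ,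
    (∏ p ∈ r.primeFactors, ((w p : ℝ) / ((p : ℝ) - w p))) * ‖TS S t‖ ^ 2 ≤
      ∑ b ∈ RR r, ‖TS S (t + b / r)‖ ^ 2 := by
  induction r using Nat.recOnMul with
  | zero => exact fun h => absurd rfl h
  | one =>
    intro _ _ _ t
    have h1 : RR 1 = {0} := by
      unfold RR
      ext b
      rw [mem_filter, mem_range, mem_singleton]
      constructor
      · rintro ⟨h, -⟩
        omega
      · intro h
        rw [h]
        exact ⟨Nat.one_pos, Nat.coprime_one_right 0⟩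
    rw [h1, Finset.sum_singleton, Nat.primeFactors_one, Finset.prod_empty, one_mul, Nat.cast_zero,
      zero_div, add_zero]
  | prime p hp =>
    intro _ _ hw t
    have h1 : p.primeFactors = {p} := hp.primeFactors
    rw [h1, Finset.prod_singleton]
    obtain ⟨h2, h3⟩ := hw p (by rw [h1]; exact mem_singleton_self p)
    exact als_pr hp S h2 h3 t
  | mul a b iha ihb =>
    intro h0 hsf hw t
    have ha0 : a ≠ 0 := left_ne_zero_of_mul h0
    have hb0 : b ≠ 0 := right_ne_zero_of_mul h0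
    have hco : a.Coprime b := Nat.coprime_of_squarefree_mul hsf
    have hsa : Squarefree a := hsf.of_mul_left
    have hsb : Squarefree b := hsf.of_mul_right
    have hpf : (a * b).primeFactors = a.primeFactors ∪ b.primeFactors :=
      Nat.primeFactors_mul ha0 hb0
    have hwa : ∀ p ∈ a.primeFactors, w p < p ∧ (S.image (fun n => n % p)).card + w p ≤ p :=
      fun p hp => hw p (by rw [hpf]; exact mem_union_left _ hp)
    have hwb : ∀ p ∈ b.primeFactors, w p < p ∧ (S.image (fun n => n % p)).card + w p ≤ p :=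
      fun p hp => hw p (by rw [hpf]; exact mem_union_right _ hp)
    have h1 := RR_mul hco (Nat.one_le_iff_ne_zero.2 ha0) (Nat.one_le_iff_ne_zero.2 hb0)
      (f := fun x => ‖TS S (t + x)‖ ^ 2) (fun x k => by
        show ‖TS S (t + (x + k))‖ ^ 2 = ‖TS S (t + x)‖ ^ 2
        rw [← add_assoc, TS_int])
    have h1' : ∑ x ∈ RR (a * b), ‖TS S (t + x / ((a * b : ℕ) : ℝ))‖ ^ 2 =
      ∑ b₂ ∈ RR b, ∑ b₁ ∈ RR a, ‖TS S (t + (b₂ / b + b₁ / a))‖ ^ 2 := h1
    rw [h1', hpf, Finset.prod_union (Nat.Coprime.disjoint_primeFactors hco)]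
    have hPa : 0 ≤ ∏ p ∈ a.primeFactors, ((w p : ℝ) / ((p : ℝ) - w p)) :=
      Finset.prod_nonneg fun p hp => by
        have : (w p : ℝ) < p := by exact_mod_cast (hwa p hp).1
        exact div_nonneg (Nat.cast_nonneg _) (by linarith)
    calc _ = (∏ p ∈ a.primeFactors, ((w p : ℝ) / ((p : ℝ) - w p))) *
          ((∏ p ∈ b.primeFactors, ((w p : ℝ) / ((p : ℝ) - w p))) * ‖TS S t‖ ^ 2) := by ring
      _ ≤ (∏ p ∈ a.primeFactors, ((w p : ℝ) / ((p : ℝ) - w p))) *
          ∑ b₂ ∈ RR b, ‖TS S (t + b₂ / b)‖ ^ 2 :=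
            mul_le_mul_of_nonneg_left (ihb hb0 hsb hwb t) hPa
      _ = ∑ b₂ ∈ RR b, (∏ p ∈ a.primeFactors, ((w p : ℝ) / ((p : ℝ) - w p))) *
          ‖TS S (t + b₂ / b)‖ ^ 2 := Finset.mul_sum _ _ _
      _ ≤ ∑ b₂ ∈ RR b, ∑ b₁ ∈ RR a, ‖TS S (t + (b₂ / b + b₁ / a))‖ ^ 2 := by
          refine Finset.sum_le_sum fun b₂ _ => ?_
          refine (iha ha0 hsa hwa (t + b₂ / b)).trans (le_of_eq ?_)
          refine Finset.sum_congr rfl fun b₁ _ => ?_
          rw [add_assoc]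

/-- **The arithmetic large sieve.** -/
theorem ALS (h : S_LSA) : S_ALS := by
  obtain ⟨C, hC, h⟩ := h
  refine ⟨C, hC, fun N Q hN hQ S hS w hw => ?_⟩
  rcases Finset.eq_empty_or_nonempty S with rfl | hne
  · rw [card_empty, Nat.cast_zero, zero_mul]
    positivity
  have h1 := h Q N 0 hQ hN (fun n => if n ∈ S then 1 else 0)
  have hIoc : Ioc 0 (0 + N) = Icc 1 N := by
    ext n
    rw [mem_Ioc, mem_Icc]
    omega
  rw [hIoc] at h1
  have e1 : ∑ n ∈ Icc 1 N, ‖(if n ∈ S then (1 : ℂ) else 0)‖ ^ 2 = S.card := by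
    have e2 : ∀ n ∈ Icc 1 N, ‖(if n ∈ S then (1 : ℂ) else 0)‖ ^ 2 = if n ∈ S then (1 : ℝ) else 0 :=
      fun n _ => by
        split_ifs
        · rw [norm_one, one_pow]
        · rw [norm_zero]
          norm_num
    rw [Finset.sum_congr rfl e2, ← Finset.sum_filter, Finset.sum_const, nsmul_eq_mul, mul_one]
    congr 2
    ext n
    rw [mem_filter]
    exact ⟨fun h => h.2, fun h => ⟨hS h, h⟩⟩
  have e3 : ∀ r b : ℕ, ∑ n ∈ Icc 1 N, (if n ∈ S then (1 : ℂ) else 0) *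
      Complex.exp (2 * Real.pi * Complex.I * n * b / r) = TS S (0 + b / r) := fun r b => by
    have e4 : ∀ n ∈ Icc 1 N, (if n ∈ S then (1 : ℂ) else 0) *
        Complex.exp (2 * Real.pi * Complex.I * n * b / r) =
        if n ∈ S then ee (n * (0 + b / r)) else 0 := fun n _ => by
      split_ifs
      · rw [one_mul]
        unfold ee
        congr 1
        push_cast
        ring
      · rw [zero_mul]
    rw [Finset.sum_congr rfl e4, ← Finset.sum_filter]
    unfold TS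
    refine Finset.sum_congr ?_ fun _ _ => rfl
    ext n
    rw [mem_filter]
    exact ⟨fun h => h.2, fun h => ⟨hS h, h⟩⟩
  have h2 : ∑ r ∈ (Icc 1 Q).filter Squarefree, ∑ b ∈ RR r, ‖TS S (0 + b / r)‖ ^ 2 ≤
      C * (N + Q ^ 2) * S.card := by
    rw [e1] at h1
    refine le_trans ?_ h1
    refine (Finset.sum_le_sum_of_subset_of_nonneg (Finset.filter_subset _ _)
      fun _ _ _ => Finset.sum_nonneg fun _ _ => by positivity).trans (le_of_eq ?_)
    refine Finset.sum_congr rfl fun r _ => ?_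
    unfold RR
    exact Finset.sum_congr rfl fun b _ => by rw [e3]
  have h3 : TS S 0 = S.card := by
    unfold TS
    have e4 : ∀ n ∈ S, ee ((n : ℝ) * 0) = 1 := fun n _ => by
      rw [mul_zero]
      have := ee_int 0
      rwa [Int.cast_zero] at this
    rw [Finset.sum_congr rfl e4, Finset.sum_const, nsmul_eq_mul, mul_one]
  have h4 : (S.card : ℝ) ^ 2 * ∑ r ∈ (Icc 1 Q).filter Squarefree,
      ∏ p ∈ r.primeFactors, ((w p : ℝ) / ((p : ℝ) - w p)) ≤ C * (N + Q ^ 2) * S.card := by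
    refine le_trans ?_ h2
    rw [Finset.mul_sum]
    refine Finset.sum_le_sum fun r hr => ?_
    obtain ⟨hr1, hr2⟩ := mem_filter.1 hr
    rw [mem_Icc] at hr1
    have h5 := als_sf (S := S) (w := w) r (by omega) hr2 (fun p hp => by
      have hp' := Nat.mem_primeFactors.1 hp
      exact hw p hp'.1 ((Nat.le_of_dvd (by omega) hp'.2.1).trans hr1.2)) 0
    rw [h3] at h5
    refine le_trans (le_of_eq ?_) h5
    rw [Complex.norm_natCast]
    ring
  have hc : (0 : ℝ) < S.card := by exact_mod_cast Finset.card_pos.2 hne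
  have h5 : (S.card : ℝ) * (S.card * ∑ r ∈ (Icc 1 Q).filter Squarefree,
      ∏ p ∈ r.primeFactors, ((w p : ℝ) / ((p : ℝ) - w p))) ≤
      S.card * (C * (N + (Q : ℝ) ^ 2)) := by
    calc _ = (S.card : ℝ) ^ 2 * ∑ r ∈ (Icc 1 Q).filter Squarefree,
          ∏ p ∈ r.primeFactors, ((w p : ℝ) / ((p : ℝ) - w p)) := by ring
      _ ≤ C * (N + Q ^ 2) * S.card := h4
      _ = _ := by ring
  exact le_of_mul_le_mul_left h5 hc

end TIE
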